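import Pool.Agent.Helper520.MZ.Space

/-!
Label sets that are not unions of few closed sets, and the choice of a line avoiding closed sets.
-/

namespace Pool.Agent.Helper520.MZ

open Set Metric Cardinal

/-- closed sets of sequences, combinatorially -/
def ClosedT {K : Type} (F : Set (ℕ → K)) : Prop :=
  ∀ v, (∀ k, ∃ v' ∈ F, ∀ m < k, v m = v' m) → v ∈ F

/-- no family of closed subsets of `lam` indexed by `T` covers `lam` -/
def NotCov {K : Type} (lam : Set (ℕ → K)) (T : Type) : Prop :=
  ∀ F : T → Set (ℕ → K), (∀ τ, ClosedT (F τ)) → (∀ τ, F τ ⊆ lam) → ∃ v ∈ lam, ∀ τ, v ∉ F τ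

/-- iterated power types -/
def Kn (T : Type) : ℕ → Type
  | 0 => T ⊕ ℕ
  | n + 1 => Set (Kn T n)

/-- the label alphabet -/
abbrev KB (T : Type) : Type := Σ n, Kn T n

instance (T : Type) : Inhabited (KB T) := ⟨⟨0, Sum.inr 0⟩⟩

theorem setKB_le (T : Type) : #(Set (KB T)) ≤ #(ℕ → KB T) := by
  refine mk_le_of_injective (f := fun A n => (⟨n + 1, {x : Kn T n | (⟨n, x⟩ : KB T) ∈ A}⟩ : KB T)) ?_
  intro A B hAB
  ext ⟨n, x⟩
  have h1 := eq_of_heq (Sigma.mk.inj (congrFun hAB n)).2
  exact iff_of_eq (congrArg (fun S : Set (Kn T n) => x ∈ S) h1)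

theorem exists_notCov (T : Type) : ∃ lam : Set (ℕ → KB T), NotCov lam T := by
  classical
  -- all unions of `T`-families of closed sets
  let Φ : (T → Set (List (KB T))) → Set (ℕ → KB T) := fun G =>
    ⋃ τ, {v | ∀ k, (List.range k).map v ∈ G τ}
  have hinf : ℵ₀ ≤ #(KB T) := by
    rw [aleph0_le_mk_iff]
    exact Infinite.of_injective (fun n : ℕ => (⟨0, Sum.inr n⟩ : KB T)) (by
      intro a b hab
      exact Sum.inr.inj (eq_of_heq (Sigma.mk.inj hab).2))
  have hT : #T ≤ #(KB T) := by
    refine mk_le_of_injective (f := fun t : T => (⟨0, Sum.inl t⟩ : KB T)) ?_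
    intro a b hab
    exact Sum.inl.inj (eq_of_heq (Sigma.mk.inj hab).2)
  have : Infinite (KB T) := infinite_iff.2 hinf
  have hns : ¬ Function.Surjective Φ := by
    intro hs
    have h1 : #(Set (ℕ → KB T)) ≤ #(T → Set (List (KB T))) := mk_le_of_surjective hs
    have h2 : #(T → Set (List (KB T))) ≤ #(Set (KB T)) := by
      rw [← power_def, mk_set, mk_set, mk_list_eq_mk, ← power_mul]
      exact power_le_power_left two_ne_zero ((mul_le_mul' le_rfl hT).trans (mul_eq_self hinf).le)
    have h3 := (h1.trans h2).trans (setKB_le T)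
    rw [mk_set] at h3
    exact absurd (cantor _) (not_lt.2 h3)
  obtain ⟨lam, hlam⟩ := not_forall.1 hns
  refine ⟨lam, fun F hF hsub => ?_⟩
  by_contra hcon
  push Not at hcon
  apply hlam
  refine ⟨fun τ => {l | ∃ v ∈ F τ, ∃ k, l = (List.range k).map v}, ?_⟩
  ext v
  simp only [Φ, mem_iUnion]
  constructor
  · rintro ⟨τ, hτ⟩
    refine hsub τ (hF τ v fun k => ?_)
    obtain ⟨v', hv', k', hk'⟩ := hτ k
    have hlen := congrArg List.length hk'
    simp only [List.length_map, List.length_range] at hlen
    subst hlen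
    refine ⟨v', hv', fun m hm => ?_⟩
    have := List.map_inj_left.1 hk' m (List.mem_range.2 hm)
    exact this
  · intro hv
    obtain ⟨τ, hτ⟩ := hcon v hv
    exact ⟨τ, fun k => ⟨v, hτ, k, rfl⟩⟩

/-- sequences chosen one term after the other -/
theorem exists_strong_seq {α : Type} [Inhabited α] (Good : ℕ → (ℕ → α) → α → Prop)
    (hcongr : ∀ n y y' v, (∀ m < n, y m = y' m) → Good n y v → Good n y' v)
    (h : ∀ n y, ∃ v, Good n y v) : ∃ x : ℕ → α, ∀ n, Good n x (x n) := by
  classical
  choose f hf using h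
  let F : ℕ → (ℕ → α) := fun n => Nat.rec (fun _ => default)
    (fun k y => Function.update y k (f k y)) n
  have hF : ∀ n, F (n + 1) = Function.update (F n) n (f n (F n)) := fun n => rfl
  let x : ℕ → α := fun n => F (n + 1) n
  have hx : ∀ n m, m < n → F n m = x m := by
    intro n
    induction n with
    | zero => intro m hm; exact absurd hm (Nat.not_lt_zero _)
    | succ n ih =>
      intro m hm
      by_cases hmn : m = n
      · subst hmn; rfl
      · rw [hF, Function.update_of_ne hmn]
        exact ih m (lt_of_le_of_ne (Nat.lt_succ_iff.1 hm) hmn)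
  refine ⟨x, fun n => ?_⟩
  have h1 := hf n (F n)
  have h2 : x n = f n (F n) := by
    change F (n + 1) n = _
    rw [hF, Function.update_self]
  rw [h2]
  exact hcongr n (F n) x _ (fun m hm => hx n m hm) h1

section

variable {K : Bool → Type} [∀ i, Inhabited (K i)] {lam : ∀ i, Set (ℕ → K i)}

open Classical in
/-- the point at height `t` with the labels `x` -/
noncomputable def mk (t : ℝ) (ht : t ∈ Ioo (0:ℝ) 1) (x : ∀ i : Bool, ℕ → ℕ → K i)
    (hx : ∀ i n, t ∉ Rc i n → t ≠ c i n → x i n ∈ lam i) : X K lam where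
  t := t
  x := fun i n => if t ∈ Rc i n then default else x i n
  ht := ht
  h0 := fun i n h => by rw [if_pos h]
  h1 := fun i n h h' => by rw [if_neg h]; exact hx i n h h'

/-- the line with labels `x` -/
noncomputable def line (x : ∀ i : Bool, ℕ → ℕ → K i) (hx : ∀ i n, x i n ∈ lam i)
    (t : ℝ) (ht : t ∈ Ioo (0:ℝ) 1) : X K lam := mk t ht x (fun i n _ _ => hx i n)

theorem mk_congr {t : ℝ} {ht : t ∈ Ioo (0:ℝ) 1} {x y : ∀ i : Bool, ℕ → ℕ → K i}
    {hx : ∀ i n, t ∉ Rc i n → t ≠ c i n → x i n ∈ lam i}
    {hy : ∀ i n, t ∉ Rc i n → t ≠ c i n → y i n ∈ lam i}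
    (h : ∀ i n, t ∉ Rc i n → x i n = y i n) : mk t ht x hx = mk t ht y hy := by
  refine X.ext rfl ?_
  funext i n
  by_cases hR : t ∈ Rc i n
  · simp only [mk, if_pos hR]
  · simp only [mk, if_neg hR]; exact h i n hR

theorem dist_line (x : ∀ i : Bool, ℕ → ℕ → K i) (hx : ∀ i n, x i n ∈ lam i)
    {s t : ℝ} (hs : s ∈ Ioo (0:ℝ) 1) (ht : t ∈ Ioo (0:ℝ) 1) :
    dist (line x hx s hs) (line x hx t ht) ≤ |s - t| := by
  classical
  refine dst_le X.t E le_rfl fun j => ?_
  by_cases hE : E j (line x hx s hs) (line x hx t ht)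
  · rw [dd, if_pos hE]; exact w_lip j s t
  · -- one of the two weights vanishes
    have h0 : w j s = 0 ∨ w j t = 0 := by
      by_contra hcon
      rw [not_or] at hcon
      have h1 := lt_of_le_of_ne (w_nonneg j s) (Ne.symm hcon.1)
      have h2 := lt_of_le_of_ne (w_nonneg j t) (Ne.symm hcon.2)
      apply hE
      obtain ⟨i, n, _ | k⟩ := j
      · have h1' := (w_none_pos.1 h1).1
        have h2' := (w_none_pos.1 h2).1
        change (if s ∈ Rc i n then default else x i n) = if t ∈ Rc i n then default else x i n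
        rw [if_neg h1', if_neg h2']
      · have h1' := w_some_pos.1 h1
        have h2' := w_some_pos.1 h2
        intro m _
        change (if s ∈ Rc i n then default else x i n) m = (if t ∈ Rc i n then default else x i n) m
        rw [if_neg h1', if_neg h2']
    have h3 := w_lip j s t
    refine (dd_le_max X.t E j _ _).trans ?_
    change max (w j s) (w j t) ≤ |s - t|
    rcases h0 with h0 | h0
    · rw [h0] at h3 ⊢
      rw [zero_sub, abs_neg] at h3
      exact max_le (abs_nonneg _) ((le_abs_self _).trans h3)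
    · rw [h0] at h3 ⊢
      rw [sub_zero] at h3
      exact max_le ((le_abs_self _).trans h3) (abs_nonneg _)

/-- the river point with label `v` -/
theorem closed_river {i : Bool} {n : ℕ} (z : (ℕ → K i) → ∀ i' : Bool, ℕ → ℕ → K i')
    (hz : ∀ v i' n', c i n ∉ Rc i' n' → c i n ≠ c i' n' → z v i' n' ∈ lam i')
    (hz1 : ∀ v, z v i n = v)
    (hz2 : ∀ v v' i' n', (i' = i → n' ≠ n) → c i n ∉ Rc i' n' → z v i' n' = z v' i' n')
    (O : Set (X K lam)) (hO : IsOpen O) :
    ClosedT {v | mk (c i n) (c_mem i n) (z v) (hz v) ∉ O} := by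
  classical
  intro v hv hvO
  obtain ⟨ε, hε, hball⟩ := Metric.isOpen_iff.1 hO _ hvO
  obtain ⟨N, hN⟩ := exists_pow_lt_of_lt_one hε (show (1/2:ℝ) < 1 by norm_num)
  obtain ⟨v', hv', hvv⟩ := hv N
  apply hv'
  apply hball
  rw [mem_ball]
  refine lt_of_le_of_lt (dst_le X.t E ?_ fun j => ?_) hN
  · change |c i n - c i n| ≤ _
    rw [sub_self, abs_zero]
    positivity
  · by_cases hE : E j (mk (c i n) (c_mem i n) (z v') (hz v')) (mk (c i n) (c_mem i n) (z v) (hz v))
    · rw [dd, if_pos hE]
      change |w j (c i n) - w j (c i n)| ≤ _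
      rw [sub_self, abs_zero]
      positivity
    · refine (dd_le_max X.t E j _ _).trans ?_
      change max (w j (c i n)) (w j (c i n)) ≤ _
      rw [max_self]
      by_contra hlt
      rw [not_le] at hlt
      have hpos : 0 < w j (c i n) := lt_trans (by positivity) hlt
      apply hE
      obtain ⟨i', n', _ | k⟩ := j
      · obtain ⟨h1, h2⟩ := w_none_pos.1 hpos
        change (if c i n ∈ Rc i' n' then default else z v' i' n') =
          if c i n ∈ Rc i' n' then default else z v i' n'
        rw [if_neg h1, if_neg h1]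
        refine hz2 v' v i' n' ?_ h1
        rintro rfl rfl
        exact h2 rfl
      · have h1 := w_some_pos.1 hpos
        have hk : k ≤ N := by
          by_contra hk
          refine absurd (hlt.trans_le (w_le_pow' i' n' k _)) (not_lt.2 ?_)
          exact pow_le_pow_of_le_one (by norm_num) (by norm_num) (not_le.1 hk).le
        intro m hm
        change (if c i n ∈ Rc i' n' then default else z v' i' n') m =
          (if c i n ∈ Rc i' n' then default else z v i' n') m
        rw [if_neg h1, if_neg h1]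
        by_cases h2 : i' = i ∧ n' = n
        · obtain ⟨rfl, rfl⟩ := h2
          rw [hz1, hz1]
          exact (hvv m (hm.trans_le hk)).symm
        · rw [hz2 v' v i' n' (fun h3 h4 => h2 ⟨h3, h4⟩) h1]

theorem mem_M_of_river {i : Bool} {n : ℕ} {x : ∀ i : Bool, ℕ → ℕ → K i}
    (hx : ∀ i' n', c i n ∉ Rc i' n' → c i n ≠ c i' n' → x i' n' ∈ lam i')
    (hin : c i n ∉ Rc i n) (hv : x i n ∉ lam i) : mk (c i n) (c_mem i n) x hx ∈
      (M : Set (X K lam)) := by
  classical
  intro i' n' h1 h2
  change c i n = c i' n' at h1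
  change c i n ∉ Rc i' n' at h2
  change (if c i n ∈ Rc i' n' then default else x i' n') ∉ lam i'
  rw [if_neg h2]
  have hii : i' = i := by
    by_contra hne
    cases i <;> cases i'
    · exact hne rfl
    · exact c_disj n n' h1
    · exact c_disj n' n h1.symm
    · exact hne rfl
  subst hii
  rcases lt_trichotomy n n' with h | h | h
  · exact absurd (later_not_vis h) h2
  · subst h; exact hv
  · exact absurd (h1 ▸ later_not_vis h) hin

/-- choice of all labels of one kind -/
theorem choose_labels (i : Bool) (T : Type) (hlam : NotCov (lam i) T)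
    (z : T → ∀ i' : Bool, ℕ → ℕ → K i') (hz : ∀ τ i' n', z τ i' n' ∈ lam i')
    (O : T → Set (X K lam)) (hO : ∀ τ, IsOpen (O τ)) (hMO : ∀ τ, M ⊆ O τ) :
    ∃ y : ℕ → ℕ → K i, (∀ n, y n ∈ lam i) ∧ ∀ τ n (_ : c i n ∉ Rc i n)
      (hh : ∀ i' n', Function.update (z τ) i y i' n' ∈ lam i'),
      line (Function.update (z τ) i y) hh (c i n) (c_mem i n) ∈ O τ := by
  classical
  obtain ⟨d, hd, -⟩ := hlam (fun _ => ∅) (fun _ v hv => by obtain ⟨v', hv', -⟩ := hv 0; exact hv')
    (fun _ => empty_subset _)
  -- one step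
  let Good : ℕ → (ℕ → ℕ → K i) → (ℕ → K i) → Prop := fun n y v => v ∈ lam i ∧
    (c i n ∉ Rc i n → ∀ (y' : ℕ → ℕ → K i), (∀ m < n, y' m = y m) → y' n = v → ∀ τ
      (hh : ∀ i' n', Function.update (z τ) i y' i' n' ∈ lam i'),
      line (Function.update (z τ) i y') hh (c i n) (c_mem i n) ∈ O τ)
  obtain ⟨y, hy⟩ := exists_strong_seq Good (by
    rintro n y y' v hyy ⟨h1, h2⟩
    exact ⟨h1, fun hn y'' h3 => h2 hn y'' fun m hm => (h3 m hm).trans (hyy m hm).symm⟩) (by
    intro n y
    by_cases hn : c i n ∉ Rc i n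
    swap
    · exact ⟨d, hd, fun h => absurd h hn⟩
    by_cases hyl : ∀ m < n, y m ∈ lam i
    swap
    · refine ⟨d, hd, fun _ y' h1 _ τ hh => absurd ?_ hyl⟩
      intro m hm
      have := hh i m
      rw [Function.update_self] at this
      rw [← h1 m hm]; exact this
    let Y : (ℕ → K i) → ℕ → ℕ → K i := fun v m => if m < n then y m else if m = n then v else d
    have hz1 : ∀ (τ : T) v i' n', c i n ∉ Rc i' n' → c i n ≠ c i' n' →
        Function.update (z τ) i (Y v) i' n' ∈ lam i' := by
      intro τ v i' n' _ h2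
      by_cases hii : i' = i
      · subst hii
        rw [Function.update_self]
        by_cases h3 : n' < n
        · simp only [Y, if_pos h3]; exact hyl n' h3
        · have h4 : n' ≠ n := fun h4 => h2 (by rw [h4])
          simp only [Y, if_neg h3, if_neg h4]; exact hd
      · rw [Function.update_of_ne hii]; exact hz τ i' n'
    obtain ⟨v, hv, hvF⟩ := hlam
      (fun τ => {v | mk (c i n) (c_mem i n) (Function.update (z τ) i (Y v)) (hz1 τ v) ∉ O τ})
      (fun τ => closed_river (fun v => Function.update (z τ) i (Y v)) (hz1 τ)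
        (fun v => by simp [Y]) (by
          intro v v' i' n' h1 _
          by_cases hii : i' = i
          · subst hii
            simp only [Function.update_self, Y, if_neg (h1 rfl)]
          · simp only [Function.update_of_ne hii]) (O τ) (hO τ))
      (fun τ v hv => by
        by_contra hvl
        apply hv
        apply hMO τ
        refine mem_M_of_river _ hn ?_
        simpa [Y] using hvl)
    refine ⟨v, hv, fun _ y' h1 h2 τ hh => ?_⟩
    have h3 := hvF τ
    simp only [mem_ofPred_eq, not_not] at h3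
    convert h3 using 1
    refine mk_congr fun i' n' hR => ?_
    by_cases hii : i' = i
    · subst hii
      rw [Function.update_self, Function.update_self]
      rcases lt_trichotomy n' n with h | h | h
      · simp only [Y, if_pos h]; exact h1 n' h
      · subst h; simp only [Y, lt_irrefl, if_false, if_true]; exact h2
      · exact absurd (later_not_vis h) hR
    · rw [Function.update_of_ne hii, Function.update_of_ne hii])
  exact ⟨y, fun n => (hy n).1, fun τ n hn hh => (hy n).2 hn y (fun m _ => rfl) rfl τ hh⟩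

/-- a line inside all the open sets -/
theorem exists_line (I : Type) (hA : NotCov (lam false) I)
    (hB : NotCov (lam true) ({a : ℕ → ℕ → K false // ∀ n, a n ∈ lam false} × I))
    (O : I → Set (X K lam)) (hO : ∀ q, IsOpen (O q)) (hMO : ∀ q, M ⊆ O q) :
    ∃ (x : ∀ i : Bool, ℕ → ℕ → K i) (hx : ∀ i n, x i n ∈ lam i),
      ∀ t ht q, line x hx t ht ∈ O q := by
  classical
  have hne : ∀ i, ∃ d, d ∈ lam i := by
    intro i
    cases i
    · obtain ⟨d, hd, -⟩ := hA (fun _ => ∅) (fun _ v hv => by obtain ⟨v', hv', -⟩ := hv 0; exact hv')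
        (fun _ => empty_subset _)
      exact ⟨d, hd⟩
    · obtain ⟨d, hd, -⟩ := hB (fun _ => ∅) (fun _ v hv => by obtain ⟨v', hv', -⟩ := hv 0; exact hv')
        (fun _ => empty_subset _)
      exact ⟨d, hd⟩
  choose d hd using hne
  let zB : ({a : ℕ → ℕ → K false // ∀ n, a n ∈ lam false} × I) → ∀ i' : Bool, ℕ → ℕ → K i' :=
    fun τ => Function.update (fun i' _ => d i') false τ.1.1
  have hzB : ∀ τ i' n', zB τ i' n' ∈ lam i' := by
    intro τ i' n'
    cases i'
    · simp only [zB, Function.update_self]; exact τ.1.2 n'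
    · simp only [zB]
      rw [Function.update_of_ne (by decide)]
      exact hd true
  obtain ⟨yB, hyB, hB1⟩ := choose_labels true _ hB zB hzB (fun τ => O τ.2) (fun τ => hO τ.2)
    (fun τ => hMO τ.2)
  let zA : I → ∀ i' : Bool, ℕ → ℕ → K i' := fun _ => Function.update (fun i' _ => d i') true yB
  have hzA : ∀ τ i' n', zA τ i' n' ∈ lam i' := by
    intro τ i' n'
    cases i'
    · simp only [zA]
      rw [Function.update_of_ne (by decide)]
      exact hd false
    · simp only [zA, Function.update_self]; exact hyB n'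
  obtain ⟨yA, hyA, hA1⟩ := choose_labels false _ hA zA hzA O hO hMO
  let x : ∀ i : Bool, ℕ → ℕ → K i := Function.update (Function.update (fun i' _ => d i') true yB)
    false yA
  have hxA : x false = yA := by simp only [x, Function.update_self]
  have hxB : x true = yB := by
    simp only [x]
    rw [Function.update_of_ne (by decide), Function.update_self]
  have hx : ∀ i n, x i n ∈ lam i := by
    intro i n
    cases i
    · rw [hxA]; exact hyA n
    · rw [hxB]; exact hyB n
  refine ⟨x, hx, fun t ht q => ?_⟩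
  by_cases hriv : ∃ i n, t = c i n ∧ t ∉ Rc i n
  · obtain ⟨i, n, rfl, hR⟩ := hriv
    cases i
    · exact hA1 q n hR hx
    · have h1 : ∀ i' n', Function.update (zB (⟨yA, hyA⟩, q)) true yB i' n' ∈ lam i' := by
        intro i' n'
        cases i'
        · rw [Function.update_of_ne (by decide)]
          exact hzB _ _ _
        · rw [Function.update_self]; exact hyB n'
      have h2 := hB1 (⟨yA, hyA⟩, q) n hR h1
      convert h2 using 1
      refine mk_congr fun i' n' _ => ?_
      cases i'
      · rw [hxA, Function.update_of_ne (by decide)]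
        simp only [zB, Function.update_self]
      · rw [hxB, Function.update_self]
  · refine hMO q ?_
    intro i n h1 h2
    exact absurd ⟨i, n, h1, h2⟩ hriv

end

end Pool.Agent.Helper520.MZ
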