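import Pool.Agent.Helper520.MZ.Product

/-!
Successive partitions in the machine cannot become empty.
-/

namespace Pool.Agent.Helper520.MZ

open Set Metric Topology

/-- `Lev h M k L`: `L` is obtained from `M` by `k` successive partitions, the `j`-th one between
`h j ≤ 1/3` and `2/3 ≤ h j`. -/
def Lev {X : Type} [TopologicalSpace X] (h : ℕ → X → ℝ) (M : Set X) : ℕ → Set X → Prop
  | 0, L => L = M
  | k + 1, L => ∃ L' U V : Set X, Lev h M k L' ∧ IsOpen U ∧ IsOpen V ∧ L' ∩ U ∩ V = ∅ ∧
      (∀ x ∈ L', h k x ≤ 1 / 3 → x ∈ U) ∧ (∀ x ∈ L', 2 / 3 ≤ h k x → x ∈ V) ∧ L = L' \ (U ∪ V)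

theorem Lev.exists_open {X : Type} [MetricSpace X] {h : ℕ → X → ℝ} {M : Set X}
    (hLip : ∀ i p q, |h i p - h i q| ≤ dist p q) :
    ∀ (k : ℕ) (L : Set X), Lev h M k L → ∃ G H : ℕ → Set X,
      (∀ j < k, IsOpen (G j) ∧ IsOpen (H j) ∧ Disjoint (G j) (H j) ∧
        {x | h j x < 1 / 3} ⊆ G j ∧ {x | 2 / 3 < h j x} ⊆ H j) ∧
      ∀ x ∈ M, (∀ j < k, x ∉ G j ∧ x ∉ H j) → x ∈ L := by
  have hc : ∀ i, Continuous (h i) := by
    intro i
    rw [Metric.continuous_iff]
    intro b ε hε
    refine ⟨ε, hε, fun a ha => ?_⟩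
    rw [Real.dist_eq]
    exact (hLip i a b).trans_lt ha
  intro k
  induction k with
  | zero =>
    rintro L rfl
    exact ⟨fun _ => ∅, fun _ => ∅, by simp, fun x hx _ => hx⟩
  | succ k ih =>
    rintro L ⟨L', U, V, hL', hU, hV, hUV, hA, hB, rfl⟩
    obtain ⟨G, H, hGH, hM⟩ := ih L' hL'
    have hsep : SeparatedNhds ({x | h k x < 1 / 3} ∪ (L' ∩ U)) ({x | 2 / 3 < h k x} ∪ (L' ∩ V)) := by
      rw [separatedNhds_iff_disjoint]
      apply CompletelyNormalSpace.completely_normal
      · rw [closure_union, Set.disjoint_left]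
        rintro x (hx | hx)
        · have hx1 : h k x ≤ 1 / 3 := by
            have : closure {x | h k x < 1 / 3} ⊆ {x | h k x ≤ 1 / 3} :=
              closure_lt_subset_le (hc k) continuous_const
            exact this hx
          rintro (hx2 | ⟨hx2, hx3⟩)
          · have : 2 / 3 < h k x := hx2
            linarith
          · have : x ∈ L' ∩ U ∩ V := ⟨⟨hx2, hA x hx2 hx1⟩, hx3⟩
            rw [hUV] at this
            exact this
        · rintro (hx2 | ⟨hx2, hx3⟩)
          · rw [_root_.mem_closure_iff] at hx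
            obtain ⟨y, hy1, hy2, hy3⟩ := hx _ (isOpen_lt continuous_const (hc k)) hx2
            have : y ∈ L' ∩ U ∩ V := ⟨⟨hy2, hy3⟩, hB y hy2 (le_of_lt hy1)⟩
            rw [hUV] at this
            exact this
          · rw [_root_.mem_closure_iff] at hx
            obtain ⟨y, hy1, hy2, hy3⟩ := hx _ hV hx3
            have : y ∈ L' ∩ U ∩ V := ⟨⟨hy2, hy3⟩, hy1⟩
            rw [hUV] at this
            exact this
      · rw [closure_union, Set.disjoint_right]
        rintro x (hx | hx)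
        · have hx1 : 2 / 3 ≤ h k x := by
            have : closure {x | 2 / 3 < h k x} ⊆ {x | 2 / 3 ≤ h k x} :=
              closure_lt_subset_le continuous_const (hc k)
            exact this hx
          rintro (hx2 | ⟨hx2, hx3⟩)
          · have : h k x < 1 / 3 := hx2
            linarith
          · have : x ∈ L' ∩ U ∩ V := ⟨⟨hx2, hx3⟩, hB x hx2 hx1⟩
            rw [hUV] at this
            exact this
        · rintro (hx2 | ⟨hx2, hx3⟩)
          · rw [_root_.mem_closure_iff] at hx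
            obtain ⟨y, hy1, hy2, hy3⟩ := hx _ (isOpen_lt (hc k) continuous_const) hx2
            have : y ∈ L' ∩ U ∩ V := ⟨⟨hy2, hA y hy2 (le_of_lt hy1)⟩, hy3⟩
            rw [hUV] at this
            exact this
          · rw [_root_.mem_closure_iff] at hx
            obtain ⟨y, hy1, hy2, hy3⟩ := hx _ hU hx3
            have : y ∈ L' ∩ U ∩ V := ⟨⟨hy2, hy1⟩, hy3⟩
            rw [hUV] at this
            exact this
    obtain ⟨G', H', hG', hH', hPG, hQH, hdis⟩ := hsep
    refine ⟨fun j => if j < k then G j else G', fun j => if j < k then H j else H', ?_, ?_⟩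
    · intro j hj
      by_cases hjk : j < k
      · simp only [if_pos hjk]
        exact hGH j hjk
      · have : j = k := by omega
        subst this
        simp only [if_neg hjk]
        exact ⟨hG', hH', hdis, fun x hx => hPG (Or.inl hx), fun x hx => hQH (Or.inl hx)⟩
    · intro x hxM hx
      have hxL : x ∈ L' := hM x hxM fun j hj => by
        have := hx j (by omega)
        simpa only [if_pos hj] using this
      have hxk := hx k (by omega)
      simp only [lt_irrefl, if_false] at hxk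
      refine ⟨hxL, ?_⟩
      rintro (hxU | hxV)
      · exact hxk.1 (hPG (Or.inr ⟨hxL, hxU⟩))
      · exact hxk.2 (hQH (Or.inr ⟨hxL, hxV⟩))

theorem Lev.not_empty {X : Type} [MetricSpace X] {h : ℕ → X → ℝ} {M : Set X}
    (hLip : ∀ i p q, |h i p - h i q| ≤ dist p q) (n : ℕ)
    (hcube : ∀ O : Unit → Set X, (∀ q, IsOpen (O q)) → (∀ q, M ⊆ O q) →
      ∃ κ : CD.Q → X, Continuous κ ∧ (∀ t, ∀ i < n, h i (κ t) = 1 / 4 + (t i : ℝ) / 2) ∧
        ∀ t q, κ t ∈ O q) : ¬ Lev h M n ∅ := by
  intro hL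
  obtain ⟨G, H, hGH, hM⟩ := Lev.exists_open hLip n ∅ hL
  obtain ⟨κ, hκ1, hκ2, hκ3⟩ := hcube (fun _ => ⋃ j : Fin n, (G j ∪ H j))
    (fun _ => isOpen_iUnion fun j => (hGH j j.2).1.union (hGH j j.2).2.1)
    (fun _ x hx => by
      by_contra hcon
      simp only [mem_iUnion, not_exists, mem_union, not_or] at hcon
      exact hM x hx fun j hj => hcon ⟨j, hj⟩)
  obtain ⟨x, -, hx⟩ := CD.partitions_meet (Finset.range n) (fun l => κ ⁻¹' (G l))
    (fun l hl => (hGH l (Finset.mem_range.1 hl)).1.preimage hκ1)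
    (fun l hl x hx => by
      have hl' := Finset.mem_range.1 hl
      apply (hGH l hl').2.2.2.1
      show h l (κ x) < 1 / 3
      rw [hκ2 x l hl', hx]
      norm_num)
    (fun l hl x hx hx1 => by
      have hl' := Finset.mem_range.1 hl
      rw [_root_.mem_closure_iff] at hx
      obtain ⟨y, hy1, hy2⟩ := hx (κ ⁻¹' (H l)) ((hGH l hl').2.1.preimage hκ1) (by
        apply (hGH l hl').2.2.2.2
        show 2 / 3 < h l (κ x)
        rw [hκ2 x l hl', hx1]
        norm_num)
      exact Set.disjoint_left.1 (hGH l hl').2.2.1 hy2 hy1)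
  have := hκ3 x ()
  simp only [mem_iUnion, mem_union] at this
  obtain ⟨j, hj⟩ := this
  have hxj := hx j (Finset.mem_range.2 j.2)
  have hGo := (hGH j j.2).1.preimage hκ1
  rw [hGo.frontier_eq] at hxj
  rcases hj with hj | hj
  · exact hxj.2 hj
  · have h2 := hxj.1
    rw [_root_.mem_closure_iff] at h2
    obtain ⟨y, hy1, hy2⟩ := h2 (κ ⁻¹' (H j)) ((hGH j j.2).2.1.preimage hκ1) hj
    exact Set.disjoint_left.1 (hGH j j.2).2.2.1 hy2 hy1

end Pool.Agent.Helper520.MZ
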