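import Mathlib

/-!
Two disjoint dense sequences in the unit interval and the visibility intervals.
-/

namespace Pool.Agent.Helper520.MZ

open Set Metric

/-- an enumeration of the rationals -/
noncomputable def e : ℕ → ℚ := fun n => (Denumerable.eqv ℚ).symm n

theorem e_surj (q : ℚ) : ∃ n, e n = q := ⟨Denumerable.eqv ℚ q, by simp [e]⟩

/-- two disjoint dense sequences in the unit interval -/
noncomputable def c : Bool → ℕ → ℝ
  | false, n => if ((e n : ℚ) : ℝ) ∈ Ioo (0:ℝ) 1 then ((e n : ℚ) : ℝ) else 1 / 2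
  | true, n => if ((e n : ℚ) : ℝ) + √2 ∈ Ioo (0:ℝ) 1 then ((e n : ℚ) : ℝ) + √2 else √2 - 1

theorem sqrt_two_bounds : (1:ℝ) < √2 ∧ √2 < 2 := by
  constructor
  · rw [Real.lt_sqrt (by norm_num)]; norm_num
  · rw [Real.sqrt_lt' (by norm_num)]; norm_num

theorem c_mem (i : Bool) (n : ℕ) : c i n ∈ Ioo (0:ℝ) 1 := by
  obtain ⟨h1, h2⟩ := sqrt_two_bounds
  cases i
  · simp only [c]
    split_ifs with h
    · exact h
    · constructor <;> norm_num
  · simp only [c]
    split_ifs with h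
    · exact h
    · constructor <;> linarith

theorem c_dense (i : Bool) {a b : ℝ} (ha : 0 ≤ a) (hab : a < b) (hb : b ≤ 1) :
    ∃ n, a < c i n ∧ c i n < b := by
  cases i
  · obtain ⟨q, hq1, hq2⟩ := exists_rat_btwn hab
    obtain ⟨n, rfl⟩ := e_surj q
    refine ⟨n, ?_⟩
    have : ((e n : ℚ) : ℝ) ∈ Ioo (0:ℝ) 1 := ⟨by linarith, by linarith⟩
    simp only [c, if_pos this]
    exact ⟨hq1, hq2⟩
  · obtain ⟨q, hq1, hq2⟩ := exists_rat_btwn (show a - √2 < b - √2 by linarith)
    obtain ⟨n, rfl⟩ := e_surj q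
    refine ⟨n, ?_⟩
    have : ((e n : ℚ) : ℝ) + √2 ∈ Ioo (0:ℝ) 1 := ⟨by linarith, by linarith⟩
    simp only [c, if_pos this]
    constructor <;> linarith

theorem c_disj (n m : ℕ) : c false n ≠ c true m := by
  intro h
  have h1 : ∃ q : ℚ, c false n = q := by
    simp only [c]
    split_ifs
    · exact ⟨_, rfl⟩
    · exact ⟨1/2, by norm_num⟩
  have h2 : ∃ q : ℚ, c true m = q + √2 := by
    simp only [c]
    split_ifs
    · exact ⟨_, rfl⟩
    · exact ⟨-1, by push_cast; ring⟩
  obtain ⟨q, hq⟩ := h1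
  obtain ⟨r, hr⟩ := h2
  have h3 : √2 = ((q - r : ℚ) : ℝ) := by
    push_cast
    rw [hq, hr] at h
    linarith
  exact irrational_sqrt_two ⟨q - r, h3.symm⟩

/-- the set of heights at which player `(i, n)` is not visible -/
def Rc (i : Bool) (n : ℕ) : Set ℝ :=
  {t | t ≤ 0 ∨ 1 ≤ t ∨ ∃ m < n, c i m ∈ uIcc t (c i n)}

theorem Rc_closed (i : Bool) (n : ℕ) : IsClosed (Rc i n) := by
  have h : Rc i n = Iic 0 ∪ (Ici 1 ∪ ⋃ m ∈ Finset.range n, {t | c i m ∈ uIcc t (c i n)}) := by
    ext t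
    simp [Rc]
  rw [h]
  refine isClosed_Iic.union (isClosed_Ici.union ?_)
  refine Set.Finite.isClosed_biUnion (Finset.finite_toSet _) ?_
  intro m _
  have : {t | c i m ∈ uIcc t (c i n)} =
      {t | t ⊓ c i n ≤ c i m} ∩ {t | c i m ≤ t ⊔ c i n} := by
    ext t
    simp [uIcc]
  rw [this]
  exact (isClosed_le (continuous_id.min continuous_const) continuous_const).inter
    (isClosed_le continuous_const (continuous_id.max continuous_const))

theorem zero_mem_Rc (i : Bool) (n : ℕ) : (0:ℝ) ∈ Rc i n := Or.inl le_rfl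

theorem mem_unit_of_notMem {i : Bool} {n : ℕ} {t : ℝ} (h : t ∉ Rc i n) : t ∈ Ioo (0:ℝ) 1 := by
  simp only [Rc, mem_ofPred_eq, not_or, not_le] at h
  exact ⟨h.1, h.2.1⟩

/-- a later player of the same kind is not visible at the place of an earlier one -/
theorem later_not_vis {i : Bool} {m n : ℕ} (h : m < n) : c i m ∈ Rc i n :=
  Or.inr (Or.inr ⟨m, h, left_mem_uIcc⟩)

/-- close cuts on both sides -/
theorem exists_cuts {t : ℝ} (ht : t ∈ Ioo (0:ℝ) 1) {ε : ℝ} (hε : 0 < ε) :
    ∃ (i : Bool) (m n : ℕ), t - ε < c i m ∧ c i m < t ∧ t < c i n ∧ c i n < t + ε ∧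
      c i m ∉ Rc i m ∧ c i n ∉ Rc i n ∧
      ∀ s ∈ Ioo (c i m) (c i n), s ∉ Rc i m ∧ s ∉ Rc i n := by
  classical
  obtain ⟨i, hi⟩ : ∃ i : Bool, ∀ n, c i n ≠ t := by
    by_cases h : ∃ n, c false n = t
    · obtain ⟨n, rfl⟩ := h
      exact ⟨true, fun m hm => c_disj n m hm.symm⟩
    · exact ⟨false, fun n hn => h ⟨n, hn⟩⟩
  obtain ⟨n1, h1, h1'⟩ := c_dense i (a := max (t - ε) 0) (b := t) (le_max_right _ _)
    (max_lt (by linarith) ht.1) ht.2.le
  obtain ⟨n2, h2, h2'⟩ := c_dense i (a := t) (b := min (t + ε) 1) ht.1.le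
    (lt_min (by linarith) ht.2) (min_le_right _ _)
  let N := max n1 n2
  let S : Finset ℝ := (Finset.range (N + 1)).image (c i)
  let L := S.filter (· < t)
  let R := S.filter (t < ·)
  have hL : L.Nonempty := ⟨c i n1, by
    simp only [L, S, Finset.mem_filter, Finset.mem_image, Finset.mem_range]
    exact ⟨⟨n1, Nat.lt_succ_of_le (le_max_left _ _), rfl⟩, h1'⟩⟩
  have hR : R.Nonempty := ⟨c i n2, by
    simp only [R, S, Finset.mem_filter, Finset.mem_image, Finset.mem_range]
    exact ⟨⟨n2, Nat.lt_succ_of_le (le_max_right _ _), rfl⟩, h2⟩⟩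
  have hl1 : c i n1 ≤ L.max' hL := Finset.le_max' _ _ (by
    simp only [L, S, Finset.mem_filter, Finset.mem_image, Finset.mem_range]
    exact ⟨⟨n1, Nat.lt_succ_of_le (le_max_left _ _), rfl⟩, h1'⟩)
  have hr1 : R.min' hR ≤ c i n2 := Finset.min'_le _ _ (by
    simp only [R, S, Finset.mem_filter, Finset.mem_image, Finset.mem_range]
    exact ⟨⟨n2, Nat.lt_succ_of_le (le_max_right _ _), rfl⟩, h2⟩)
  have hlL := Finset.max'_mem L hL
  have hrR := Finset.min'_mem R hR
  simp only [L, S, Finset.mem_filter, Finset.mem_image, Finset.mem_range] at hlL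
  simp only [R, S, Finset.mem_filter, Finset.mem_image, Finset.mem_range] at hrR
  -- no other points in between
  have hno : ∀ j ≤ N, ¬ (L.max' hL < c i j ∧ c i j < R.min' hR) := by
    rintro j hj ⟨ha, hb⟩
    rcases lt_or_gt_of_ne (hi j) with h | h
    · have : c i j ∈ L := by
        simp only [L, S, Finset.mem_filter, Finset.mem_image, Finset.mem_range]
        exact ⟨⟨j, Nat.lt_succ_of_le hj, rfl⟩, h⟩
      exact absurd (Finset.le_max' _ _ this) (not_le.2 ha)
    · have : c i j ∈ R := by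
        simp only [R, S, Finset.mem_filter, Finset.mem_image, Finset.mem_range]
        exact ⟨⟨j, Nat.lt_succ_of_le hj, rfl⟩, h⟩
      exact absurd (Finset.min'_le _ _ this) (not_le.2 hb)
  -- minimal indices
  have hexl : ∃ m, c i m = L.max' hL := ⟨hlL.1.choose, hlL.1.choose_spec.2⟩
  have hexr : ∃ m, c i m = R.min' hR := ⟨hrR.1.choose, hrR.1.choose_spec.2⟩
  have hml := Nat.find_spec hexl
  have hmr := Nat.find_spec hexr
  have hmlN : Nat.find hexl ≤ N := (Nat.find_min' hexl hlL.1.choose_spec.2).trans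
    (Nat.lt_succ_iff.1 hlL.1.choose_spec.1)
  have hmrN : Nat.find hexr ≤ N := (Nat.find_min' hexr hrR.1.choose_spec.2).trans
    (Nat.lt_succ_iff.1 hrR.1.choose_spec.1)
  have hltr : L.max' hL < R.min' hR := hlL.2.trans hrR.2
  refine ⟨i, Nat.find hexl, Nat.find hexr, ?_, ?_, ?_, ?_, ?_, ?_, ?_⟩
  · rw [hml]; exact ((le_max_left _ _).trans_lt h1).trans_le hl1
  · rw [hml]; exact hlL.2
  · rw [hmr]; exact hrR.2
  · rw [hmr]; exact (hr1.trans_lt h2').trans_le (min_le_left _ _)
  · rintro (h | h | ⟨j, hj, hj'⟩)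
    · exact absurd (c_mem i _).1 (not_lt.2 h)
    · exact absurd (c_mem i _).2 (not_lt.2 h)
    · rw [uIcc_self, mem_singleton_iff] at hj'
      exact Nat.find_min hexl hj (hj'.trans hml)
  · rintro (h | h | ⟨j, hj, hj'⟩)
    · exact absurd (c_mem i _).1 (not_lt.2 h)
    · exact absurd (c_mem i _).2 (not_lt.2 h)
    · rw [uIcc_self, mem_singleton_iff] at hj'
      exact Nat.find_min hexr hj (hj'.trans hmr)
  · rintro s ⟨hs1, hs2⟩
    constructor
    · rintro (h | h | ⟨j, hj, hj'⟩)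
      · exact absurd (((c_mem i _).1.trans hs1).trans_le h) (lt_irrefl _)
      · exact absurd ((h.trans_lt hs2).trans (c_mem i _).2) (lt_irrefl _)
      · rw [uIcc_of_ge hs1.le] at hj'
        have hne : c i j ≠ L.max' hL := fun h => Nat.find_min hexl hj h
        rw [hml] at hj' hs1
        rw [hmr] at hs2
        exact hno j (hj.le.trans hmlN) ⟨lt_of_le_of_ne hj'.1 hne.symm, hj'.2.trans_lt hs2⟩
    · rintro (h | h | ⟨j, hj, hj'⟩)
      · exact absurd (((c_mem i _).1.trans hs1).trans_le h) (lt_irrefl _)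
      · exact absurd ((h.trans_lt hs2).trans (c_mem i _).2) (lt_irrefl _)
      · rw [uIcc_of_le hs2.le] at hj'
        have hne : c i j ≠ R.min' hR := fun h => Nat.find_min hexr hj h
        rw [hml] at hs1
        rw [hmr] at hj' hs2
        exact hno j (hj.le.trans hmrN) ⟨hs1.trans_le hj'.1, lt_of_le_of_ne hj'.2 hne⟩

/-- channel weights: `(i, n, none)` is the full label channel, `(i, n, some k)` the channel of the
first `k` entries of the label. -/
noncomputable def w : Bool × ℕ × Option ℕ → ℝ → ℝ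
  | (i, n, none), t => min ((1/2 : ℝ) ^ n) (infDist t (insert (c i n) (Rc i n)))
  | (i, n, some k), t => min ((1/2 : ℝ) ^ (n + k)) (infDist t (Rc i n))

theorem w_nonneg (j : Bool × ℕ × Option ℕ) (t : ℝ) : 0 ≤ w j t := by
  obtain ⟨i, n, _ | k⟩ := j
  · exact le_min (by positivity) infDist_nonneg
  · exact le_min (by positivity) infDist_nonneg

theorem w_le_pow (i : Bool) (n : ℕ) (o : Option ℕ) (t : ℝ) : w (i, n, o) t ≤ (1/2) ^ n := by
  cases o with
  | none => exact min_le_left _ _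
  | some k => exact (min_le_left _ _).trans (pow_le_pow_of_le_one (by norm_num) (by norm_num)
      (Nat.le_add_right _ _))

theorem w_le_pow' (i : Bool) (n k : ℕ) (t : ℝ) : w (i, n, some k) t ≤ (1/2) ^ k :=
  (min_le_left _ _).trans (pow_le_pow_of_le_one (by norm_num) (by norm_num)
      (Nat.le_add_left _ _))

theorem w_le_one (j : Bool × ℕ × Option ℕ) (t : ℝ) : w j t ≤ 1 := by
  obtain ⟨i, n, o⟩ := j
  exact (w_le_pow i n o t).trans (pow_le_one₀ (by norm_num) (by norm_num))

theorem min_lip {a x y d : ℝ} (hd : |x - y| ≤ d) : |min a x - min a y| ≤ d :=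
  (abs_min_sub_min_le_max a x a y).trans (by simp only [sub_self, abs_zero]; exact max_le ((abs_nonneg _).trans hd) hd)

theorem infDist_lip (s : Set ℝ) (x y : ℝ) : |infDist x s - infDist y s| ≤ |x - y| := by
  rw [abs_sub_le_iff]
  constructor
  · have := infDist_le_infDist_add_dist (s := s) (x := x) (y := y)
    rw [Real.dist_eq] at this
    linarith
  · have := infDist_le_infDist_add_dist (s := s) (x := y) (y := x)
    rw [Real.dist_eq, abs_sub_comm] at this
    linarith

theorem w_lip (j : Bool × ℕ × Option ℕ) (s t : ℝ) : |w j s - w j t| ≤ |s - t| := by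
  obtain ⟨i, n, _ | k⟩ := j
  · exact min_lip (infDist_lip _ _ _)
  · exact min_lip (infDist_lip _ _ _)

theorem w_none_pos {i : Bool} {n : ℕ} {t : ℝ} : 0 < w (i, n, none) t ↔ t ∉ Rc i n ∧ t ≠ c i n := by
  have hcl : IsClosed (insert (c i n) (Rc i n)) := by
    rw [insert_eq]
    exact isClosed_singleton.union (Rc_closed i n)
  have hne : (insert (c i n) (Rc i n)).Nonempty := ⟨_, mem_insert _ _⟩
  have h := hcl.notMem_iff_infDist_pos hne (x := t)
  simp only [w, lt_min_iff]
  rw [← h, mem_insert_iff, not_or]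
  constructor
  · rintro ⟨-, h1, h2⟩; exact ⟨h2, h1⟩
  · rintro ⟨h1, h2⟩; exact ⟨by positivity, h2, h1⟩

theorem w_some_pos {i : Bool} {n k : ℕ} {t : ℝ} : 0 < w (i, n, some k) t ↔ t ∉ Rc i n := by
  have h := (Rc_closed i n).notMem_iff_infDist_pos ⟨0, zero_mem_Rc i n⟩ (x := t)
  simp only [w, lt_min_iff]
  rw [← h]
  constructor
  · rintro ⟨-, h1⟩; exact h1
  · intro h1; exact ⟨by positivity, h1⟩

end Pool.Agent.Helper520.MZ
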