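import Pool.Agent.Helper520.MZ.Choice

/-!
The main existence theorem.
-/

namespace Pool.Agent.Helper520.MZ

open Set Metric

/-- For every index type `I` there is a metric space with a subset `M` all of whose points have
arbitrarily small neighbourhoods with boundary missing `M`, such that any `I`-indexed family of
open supersets of `M` contains a common line. -/
theorem exists_space (I : Type) : ∃ (X : Type) (_ : MetricSpace X) (M : Set X) (h : X → ℝ),
    (∀ p q, |h p - h q| ≤ dist p q) ∧ (∀ p, h p ∈ Ioo (0:ℝ) 1) ∧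
    (∀ (p0 : X) (U : Set X), IsOpen U → p0 ∈ U →
      ∃ V : Set X, IsOpen V ∧ p0 ∈ V ∧ V ⊆ U ∧ M ∩ closure V ⊆ V) ∧
    (∀ O : I → Set X, (∀ q, IsOpen (O q)) → (∀ q, M ⊆ O q) →
      ∃ γ : Ioo (0:ℝ) 1 → X, (∀ s, h (γ s) = s) ∧ (∀ s t, dist (γ s) (γ t) ≤ |(s:ℝ) - t|) ∧
        ∀ s q, γ s ∈ O q) := by
  obtain ⟨lamA, hA⟩ := exists_notCov I
  obtain ⟨lamB, hB⟩ := exists_notCov ({a : ℕ → ℕ → KB I // ∀ n, a n ∈ lamA} × I)
  let K : Bool → Type := fun b => match b with
    | false => KB I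
    | true => KB ({a : ℕ → ℕ → KB I // ∀ n, a n ∈ lamA} × I)
  have iK : ∀ i, Inhabited (K i) := fun i => match i with
    | false => inferInstanceAs (Inhabited (KB I))
    | true => inferInstanceAs (Inhabited (KB ({a : ℕ → ℕ → KB I // ∀ n, a n ∈ lamA} × I)))
  let lam : ∀ i, Set (ℕ → K i) := fun i => match i with
    | false => lamA
    | true => lamB
  refine ⟨X K lam, inferInstance, M, X.t, abs_le_dist, X.ht, ind_zero, ?_⟩
  intro O hO hMO
  obtain ⟨x, hx, hl⟩ := exists_line (K := K) (lam := lam) I hA hB O hO hMO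
  exact ⟨fun s => line x hx s.1 s.2, fun s => rfl, fun s t => dist_line x hx s.2 t.2,
    fun s q => hl s.1 s.2 q⟩

end Pool.Agent.Helper520.MZ
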