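import Pool.Agent.Helper520.MZ.Main
import Pool.Agent.Helper520.CD.Core1

/-!
Finite products of the spaces of `Main`: the `n`-dimensional machine.
-/

namespace Pool.Agent.Helper520.MZ

open Set Metric Topology

/-- A metric space with a subset `M` all of whose points have small neighbourhoods with boundary
off `M`, with `n` heights, such that common cubes can be found in `I` many open supersets. -/
def Machine (n : ℕ) (I : Type) : Prop :=
  ∃ (X : Type) (_ : MetricSpace X) (M : Set X) (h : ℕ → X → ℝ),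
    (∀ i p q, |h i p - h i q| ≤ dist p q) ∧
    (∀ (p0 : X) (U : Set X), IsOpen U → p0 ∈ U →
      ∃ V : Set X, IsOpen V ∧ p0 ∈ V ∧ V ⊆ U ∧ M ∩ closure V ⊆ V) ∧
    (∀ O : I → Set X, (∀ q, IsOpen (O q)) → (∀ q, M ⊆ O q) →
      ∃ κ : CD.Q → X, Continuous κ ∧ (∀ t, ∀ i < n, h i (κ t) = 1 / 4 + (t i : ℝ) / 2) ∧
        ∀ t q, κ t ∈ O q)

theorem machine_zero (I : Type) : Machine 0 I := by
  refine ⟨Unit, inferInstance, univ, fun _ _ => 0, by simp, ?_, ?_⟩
  · intro p0 U hU hp
    refine ⟨U, hU, hp, subset_rfl, ?_⟩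
    rintro ⟨⟩ -
    exact hp
  · intro O hO hM
    exact ⟨fun _ => (), continuous_const, by simp, fun t q => hM q (mem_univ _)⟩

theorem mem_Ioo_of_unit (s : unitInterval) : 1 / 4 + (s : ℝ) / 2 ∈ Ioo (0:ℝ) 1 := by
  have h1 := s.2.1
  have h2 := s.2.2
  constructor <;> linarith

theorem machine_succ (n : ℕ) (I : Type) (hn : Machine n I) : Machine (n + 1) I := by
  obtain ⟨X, mX, M, h, hLip, hind, hcube⟩ := hn
  obtain ⟨Y, mY, N, g, gLip, gIoo, gind, gline⟩ := exists_space (I × M)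
  refine ⟨X × Y, inferInstance, M ×ˢ N, fun i p => if i < n then h i p.1 else g p.2, ?_, ?_, ?_⟩
  · intro i p q
    by_cases hi : i < n
    · simp only [if_pos hi]
      exact (hLip i p.1 q.1).trans (le_max_left _ _)
    · simp only [if_neg hi]
      exact (gLip p.2 q.2).trans (le_max_right _ _)
  · rintro ⟨p, q⟩ U hU hpU
    obtain ⟨U1, U2, hU1, hU2, hp, hq, hsub⟩ := isOpen_prod_iff.1 hU p q hpU
    obtain ⟨V1, hV1, hpV1, hVU1, hVM1⟩ := hind p U1 hU1 hp
    obtain ⟨V2, hV2, hpV2, hVU2, hVM2⟩ := gind q U2 hU2 hq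
    refine ⟨V1 ×ˢ V2, hV1.prod hV2, ⟨hpV1, hpV2⟩, (prod_mono hVU1 hVU2).trans hsub, ?_⟩
    rw [closure_prod_eq]
    rintro ⟨a, b⟩ ⟨⟨ha, hb⟩, ⟨ha', hb'⟩⟩
    exact ⟨hVM1 ⟨ha, ha'⟩, hVM2 ⟨hb, hb'⟩⟩
  · intro O hO hMO
    obtain ⟨γ, hγ1, hγ2, hγ3⟩ := gline (fun qm => {y | ((qm.2 : X), y) ∈ O qm.1})
      (fun qm => (hO qm.1).preimage (by fun_prop))
      (fun qm y hy => hMO qm.1 ⟨qm.2.2, hy⟩)
    have hγc : Continuous γ := by
      rw [Metric.continuous_iff]
      intro b ε hε
      refine ⟨ε, hε, fun a ha => (hγ2 a b).trans_lt ?_⟩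
      rwa [Subtype.dist_eq, Real.dist_eq] at ha
    let σ : unitInterval → Y := fun s => γ ⟨1 / 4 + (s : ℝ) / 2, mem_Ioo_of_unit s⟩
    have hσc : Continuous σ := by
      refine hγc.comp ?_
      refine Continuous.subtype_mk ?_ _
      fun_prop
    obtain ⟨κ, hκ1, hκ2, hκ3⟩ := hcube (fun q => {y | ∀ s, (y, σ s) ∈ O q}) (by
        intro q
        have : {y : X | ∀ s, (y, σ s) ∈ O q} =
            (Prod.fst '' ((fun p : X × unitInterval => (p.1, σ p.2)) ⁻¹' (O q)ᶜ))ᶜ := by
          ext y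
          simp
        rw [this, isOpen_compl_iff]
        refine isClosedMap_fst_of_compactSpace _ ?_
        exact ((hO q).isClosed_compl).preimage (by fun_prop)) (by
        intro q m hm s
        exact hγ3 _ (q, ⟨m, hm⟩))
    refine ⟨fun t => (κ t, σ (t n)), ?_, ?_, ?_⟩
    · exact hκ1.prodMk (hσc.comp (continuous_apply n))
    · intro t i hi
      by_cases hin : i < n
      · simp only [if_pos hin]
        exact hκ2 t i hin
      · have hin' : i = n := by omega
        subst hin'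
        simp only [if_neg hin]
        exact hγ1 _
    · intro t q
      exact hκ3 t q (t n)

theorem machine (n : ℕ) (I : Type) : Machine n I := by
  induction n with
  | zero => exact machine_zero I
  | succ n ih => exact machine_succ n I ih

end Pool.Agent.Helper520.MZ
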