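import Pool.Agent.Helper520.MZ.Lines

/-!
The metric space `X` and its subset `M` with small inductive dimension zero.
-/

namespace Pool.Agent.Helper520.MZ

open Set Metric

/-- channels -/
abbrev J := Bool × ℕ × Option ℕ

section Dist

variable {P : Type} (h : P → ℝ) (E : J → P → P → Prop)

open Classical in
/-- distance in one channel -/
noncomputable def dd (j : J) (p q : P) : ℝ :=
  if E j p q then |w j (h p) - w j (h q)| else max (w j (h p)) (w j (h q))

theorem dd_nonneg (j : J) (p q : P) : 0 ≤ dd h E j p q := by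
  unfold dd
  split_ifs
  · exact abs_nonneg _
  · exact le_max_of_le_left (w_nonneg _ _)

theorem dd_le_max (j : J) (p q : P) : dd h E j p q ≤ max (w j (h p)) (w j (h q)) := by
  unfold dd
  split_ifs
  · have h1 := w_nonneg j (h p)
    have h2 := w_nonneg j (h q)
    rw [abs_le]
    constructor
    · have := le_max_right (w j (h p)) (w j (h q)); linarith
    · have := le_max_left (w j (h p)) (w j (h q)); linarith
  · exact le_rfl

theorem dd_le_one (j : J) (p q : P) : dd h E j p q ≤ 1 :=
  (dd_le_max h E j p q).trans (max_le (w_le_one _ _) (w_le_one _ _))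

theorem dd_bdd (p q : P) : BddAbove (range fun j => dd h E j p q) :=
  ⟨1, by rintro _ ⟨j, rfl⟩; exact dd_le_one h E j p q⟩

/-- the distance -/
noncomputable def dst (p q : P) : ℝ := max |h p - h q| (⨆ j, dd h E j p q)

theorem dd_le_dst (j : J) (p q : P) : dd h E j p q ≤ dst h E p q :=
  (le_ciSup (dd_bdd h E p q) j).trans (le_max_right _ _)

theorem abs_le_dst (p q : P) : |h p - h q| ≤ dst h E p q := le_max_left _ _

theorem dst_le {p q : P} {r : ℝ} (h1 : |h p - h q| ≤ r) (h2 : ∀ j, dd h E j p q ≤ r) :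
    dst h E p q ≤ r := max_le h1 (ciSup_le h2)

variable {E} (hrefl : ∀ j p, E j p p) (hsymm : ∀ j p q, E j p q → E j q p)
  (htrans : ∀ j p q r, E j p q → E j q r → E j p r)

include hrefl in
theorem dst_self (p : P) : dst h E p p = 0 := by
  have h1 : ∀ j, dd h E j p p = 0 := fun j => by simp [dd, hrefl]
  simp [dst, h1]

include hsymm in
theorem dd_comm (j : J) (p q : P) : dd h E j p q = dd h E j q p := by
  unfold dd
  by_cases h1 : E j p q
  · rw [if_pos h1, if_pos (hsymm _ _ _ h1), abs_sub_comm]
  · rw [if_neg h1, if_neg (fun h2 => h1 (hsymm _ _ _ h2)), max_comm]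

include hsymm in
theorem dst_comm (p q : P) : dst h E p q = dst h E q p := by
  unfold dst
  rw [abs_sub_comm]
  congr 1
  exact iSup_congr fun j => dd_comm h hsymm j p q

include hsymm htrans in
theorem dd_triangle (j : J) (p q r : P) : dd h E j p r ≤ dd h E j p q + dd h E j q r := by
  have hp := w_nonneg j (h p)
  have hq := w_nonneg j (h q)
  have hr := w_nonneg j (h r)
  unfold dd
  by_cases h1 : E j p q <;> by_cases h2 : E j q r
  · rw [if_pos h1, if_pos h2, if_pos (htrans _ _ _ _ h1 h2)]
    exact abs_sub_le _ _ _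
  · have h3 : ¬ E j p r := fun h3 => h2 (htrans _ _ _ _ (hsymm _ _ _ h1) h3)
    rw [if_pos h1, if_neg h2, if_neg h3]
    have a1 := le_abs_self (w j (h p) - w j (h q))
    have a2 := le_max_left (w j (h q)) (w j (h r))
    have a3 := le_max_right (w j (h q)) (w j (h r))
    have a4 := abs_nonneg (w j (h p) - w j (h q))
    exact max_le (by linarith) (by linarith)
  · have h3 : ¬ E j p r := fun h3 => h1 (htrans _ _ _ _ h3 (hsymm _ _ _ h2))
    rw [if_neg h1, if_pos h2, if_neg h3]
    have a1 := neg_abs_le (w j (h q) - w j (h r))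
    have a2 := le_max_left (w j (h p)) (w j (h q))
    have a3 := le_max_right (w j (h p)) (w j (h q))
    have a4 := abs_nonneg (w j (h q) - w j (h r))
    exact max_le (by linarith) (by linarith)
  · rw [if_neg h1, if_neg h2]
    have a1 := le_max_left (w j (h p)) (w j (h q))
    have a2 := le_max_right (w j (h q)) (w j (h r))
    by_cases h3 : E j p r
    · rw [if_pos h3]
      rw [abs_le]
      have a3 := le_max_right (w j (h p)) (w j (h q))
      have a4 := le_max_left (w j (h q)) (w j (h r))
      constructor <;> linarith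
    · rw [if_neg h3]
      have a3 := le_max_right (w j (h p)) (w j (h q))
      have a4 := le_max_left (w j (h q)) (w j (h r))
      exact max_le (by linarith) (by linarith)

include hsymm htrans in
theorem dst_triangle (p q r : P) : dst h E p r ≤ dst h E p q + dst h E q r := by
  refine dst_le h E ((abs_sub_le _ _ _).trans (add_le_add (abs_le_dst h E _ _)
    (abs_le_dst h E _ _))) fun j => ?_
  exact (dd_triangle h hsymm htrans j p q r).trans
    (add_le_add (dd_le_dst h E _ _ _) (dd_le_dst h E _ _ _))

end Dist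

variable (K : Bool → Type) [∀ i, Inhabited (K i)] (lam : ∀ i, Set (ℕ → K i))

/-- the points: a height `t` and labels of the visible players -/
@[ext] structure X where
  /-- height -/
  t : ℝ
  /-- labels -/
  x : ∀ i : Bool, ℕ → ℕ → K i
  ht : t ∈ Ioo (0:ℝ) 1
  h0 : ∀ i n, t ∈ Rc i n → x i n = default
  h1 : ∀ i n, t ∉ Rc i n → t ≠ c i n → x i n ∈ lam i

variable {K lam}

/-- equality of labels in a channel -/
def E : J → X K lam → X K lam → Prop
  | (i, n, none), p, q => p.x i n = q.x i n
  | (i, n, some k), p, q => ∀ m < k, p.x i n m = q.x i n m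

theorem E_refl (j : J) (p : X K lam) : E j p p := by
  obtain ⟨i, n, _ | k⟩ := j
  · rfl
  · intro m _; rfl

theorem E_symm (j : J) (p q : X K lam) (h : E j p q) : E j q p := by
  obtain ⟨i, n, _ | k⟩ := j
  · exact Eq.symm h
  · intro m hm; exact (h m hm).symm

theorem E_trans (j : J) (p q r : X K lam) (h : E j p q) (h' : E j q r) : E j p r := by
  obtain ⟨i, n, _ | k⟩ := j
  · exact Eq.trans h h'
  · intro m hm; exact (h m hm).trans (h' m hm)

noncomputable instance : MetricSpace (X K lam) where
  dist p q := dst X.t E p q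
  dist_self p := dst_self X.t E_refl p
  dist_comm p q := dst_comm X.t E_symm p q
  dist_triangle p q r := dst_triangle X.t E_symm E_trans p q r
  eq_of_dist_eq_zero := by
    intro p q hpq
    have hpq' : dst X.t E p q = 0 := hpq
    have ht : p.t = q.t := by
      have := abs_le_dst X.t E p q
      rw [hpq'] at this
      exact sub_eq_zero.1 (abs_nonpos_iff.1 this)
    refine X.ext ht ?_
    funext i n
    by_cases hR : p.t ∈ Rc i n
    · rw [p.h0 i n hR, q.h0 i n (ht ▸ hR)]
    · funext m
      by_contra hne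
      have hE : ¬ E (i, n, some (m + 1)) p q := fun h => hne (h m (Nat.lt_succ_self m))
      have h1 := dd_le_dst X.t E (i, n, some (m + 1)) p q
      rw [hpq', dd, if_neg hE] at h1
      have h2 := (w_some_pos (k := m + 1)).2 hR
      exact absurd (h2.trans_le ((le_max_left _ _).trans h1)) (lt_irrefl _)

theorem dist_def (p q : X K lam) : dist p q = dst X.t E p q := rfl

theorem abs_le_dist (p q : X K lam) : |p.t - q.t| ≤ dist p q := abs_le_dst X.t E p q

theorem E_of_dist_lt {j : J} {p q : X K lam} (h : dist p q < w j p.t) : E j p q := by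
  by_contra hE
  have h1 := dd_le_dst X.t E j p q
  rw [dd, if_neg hE] at h1
  exact absurd ((h.trans_le (le_max_left _ _)).trans_le h1) (lt_irrefl _)

theorem continuous_t : Continuous (X.t : X K lam → ℝ) := by
  rw [Metric.continuous_iff]
  intro p ε hε
  refine ⟨ε, hε, fun q hq => ?_⟩
  rw [Real.dist_eq]
  exact (abs_le_dist q p).trans_lt hq

theorem isOpen_chan (j : J) (p0 : X K lam) : IsOpen {q : X K lam | 0 < w j q.t ∧ E j q p0} := by
  rw [Metric.isOpen_iff]
  rintro q ⟨hq, hE⟩
  refine ⟨w j q.t, hq, fun r hr => ?_⟩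
  rw [mem_ball, dist_comm] at hr
  refine ⟨?_, E_trans _ _ _ _ (E_symm _ _ _ (E_of_dist_lt hr)) hE⟩
  have h1 := w_lip j q.t r.t
  have h2 := (h1.trans (abs_le_dist q r)).trans_lt hr
  have h3 := le_abs_self (w j q.t - w j r.t)
  linarith

/-- the subset of small inductive dimension zero -/
def M : Set (X K lam) := {p | ∀ i n, p.t = c i n → p.t ∉ Rc i n → p.x i n ∉ lam i}

theorem ind_zero (p0 : X K lam) (U : Set (X K lam))
    (hU : IsOpen U) (hpU : p0 ∈ U) :
    ∃ V : Set (X K lam), IsOpen V ∧ p0 ∈ V ∧ V ⊆ U ∧ M ∩ closure V ⊆ V := by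
  classical
  obtain ⟨ε, hε, hball⟩ := Metric.isOpen_iff.1 hU p0 hpU
  obtain ⟨N, hN⟩ := exists_pow_lt_of_lt_one (show 0 < ε / 2 by linarith)
    (show (1/2:ℝ) < 1 by norm_num)
  -- relevant channels
  let JN : Finset J := Finset.univ ×ˢ (Finset.range N ×ˢ
    (insert none ((Finset.range N).image some)))
  have hJN : ∀ j ∉ JN, ∀ t, w j t ≤ ε / 2 := by
    rintro ⟨i, n, o⟩ hj t
    by_cases hn : n < N
    · cases o with
      | none =>
        exfalso
        apply hj
        simp [JN, hn]
      | some k =>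
        have hk : ¬ k < N := by
          intro hk
          apply hj
          simp [JN, hn, hk]
        refine (w_le_pow' i n k t).trans (le_trans ?_ hN.le)
        exact pow_le_pow_of_le_one (by norm_num) (by norm_num) (not_lt.1 hk)
    · refine (w_le_pow i n o t).trans (le_trans ?_ hN.le)
      exact pow_le_pow_of_le_one (by norm_num) (by norm_num) (not_lt.1 hn)
  let JJ := JN.filter fun j => 0 < w j p0.t
  obtain ⟨δ, hδ, hδε, hδw⟩ : ∃ δ > 0, δ ≤ ε / 2 ∧ ∀ j ∈ JJ, δ ≤ w j p0.t := by
    by_cases hne : JJ.Nonempty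
    · obtain ⟨j0, hj0, hmin⟩ := JJ.exists_min_image (fun j => w j p0.t) hne
      refine ⟨min (ε / 2) (w j0 p0.t), lt_min (by linarith) (Finset.mem_filter.1 hj0).2,
        min_le_left _ _, fun j hj => (min_le_right _ _).trans (hmin j hj)⟩
    · exact ⟨ε / 2, by linarith, le_rfl, fun j hj => absurd ⟨j, hj⟩ hne⟩
  obtain ⟨i, m, n, hm1, hm2, hn1, hn2, hm, hn, hvis⟩ := exists_cuts p0.ht hδ
  let CC : Finset J := insert (i, m, none) (insert (i, n, none) JJ)
  have hw : ∀ j ∈ CC, ∀ s ∈ Ioo (c i m) (c i n), 0 < w j s := by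
    intro j hj s hs
    rw [Finset.mem_insert, Finset.mem_insert] at hj
    rcases hj with rfl | rfl | hj
    · exact w_none_pos.2 ⟨(hvis s hs).1, hs.1.ne'⟩
    · exact w_none_pos.2 ⟨(hvis s hs).2, hs.2.ne⟩
    · have h1 := hδw j hj
      have h2 := w_lip j p0.t s
      have h3 := le_abs_self (w j p0.t - w j s)
      have h4 : |p0.t - s| < δ := by
        rw [abs_lt]
        constructor <;> linarith [hs.1, hs.2]
      linarith
  refine ⟨X.t ⁻¹' Ioo (c i m) (c i n) ∩ ⋂ j ∈ CC, {q | 0 < w j q.t ∧ E j q p0}, ?_, ?_, ?_, ?_⟩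
  · refine (isOpen_Ioo.preimage continuous_t).inter ?_
    exact isOpen_biInter_finset fun j _ => isOpen_chan j p0
  · refine ⟨⟨hm2, hn1⟩, ?_⟩
    simp only [mem_iInter]
    exact fun j hj => ⟨hw j hj _ ⟨hm2, hn1⟩, E_refl _ _⟩
  · rintro q ⟨hq1, hq2⟩
    simp only [mem_iInter] at hq2
    apply hball
    rw [mem_ball]
    refine lt_of_le_of_lt (dst_le X.t E ?_ fun j => ?_) (show ε / 2 < ε by linarith)
    · refine le_trans (abs_lt.2 ?_).le hδε
      have h1 := hq1.1
      have h2 := hq1.2
      constructor <;> linarith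
    · have hqt : |q.t - p0.t| ≤ ε / 2 := by
        refine le_trans (abs_lt.2 ?_).le hδε
        have h1 := hq1.1
        have h2 := hq1.2
        constructor <;> linarith
      by_cases hj : j ∈ JN
      · by_cases hpos : 0 < w j p0.t
        · have h1 := (hq2 j (Finset.mem_insert_of_mem (Finset.mem_insert_of_mem
            (Finset.mem_filter.2 ⟨hj, hpos⟩)))).2
          rw [dd, if_pos h1]
          exact (w_lip j _ _).trans hqt
        · have h0 : w j p0.t = 0 := le_antisymm (not_lt.1 hpos) (w_nonneg _ _)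
          refine (dd_le_max X.t E j q p0).trans ?_
          rw [h0]
          refine max_le ?_ (by linarith)
          have h1 := w_lip j q.t p0.t
          rw [h0, sub_zero] at h1
          exact (le_abs_self _).trans (h1.trans hqt)
      · exact (dd_le_max X.t E j q p0).trans (max_le (hJN j hj _) (hJN j hj _))
  · rintro p ⟨hpM, hpc⟩
    -- labels pass to the limit in channels of positive weight
    have key : ∀ j, 0 < w j p.t → (∀ q : X K lam, q ∈ (X.t ⁻¹' Ioo (c i m) (c i n) ∩ ⋂ j ∈ CC,
        {q : X K lam | 0 < w j q.t ∧ E j q p0}) → E j q p0) → E j p p0 := by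
      intro j hj hall
      obtain ⟨q, hq, hd⟩ := Metric.mem_closure_iff.1 hpc _ hj
      exact E_trans _ _ _ _ (E_of_dist_lt hd) (hall q hq)
    have hCC : ∀ j ∈ CC, ∀ q : X K lam, q ∈ (X.t ⁻¹' Ioo (c i m) (c i n) ∩ ⋂ j ∈ CC,
        {q : X K lam | 0 < w j q.t ∧ E j q p0}) → E j q p0 := by
      rintro j hj q ⟨-, hq2⟩
      simp only [mem_iInter] at hq2
      exact (hq2 j hj).2
    have hpt : p.t ∈ Icc (c i m) (c i n) := by
      have : p ∈ X.t ⁻¹' Icc (c i m) (c i n) := by
        refine closure_minimal ?_ (isClosed_Icc.preimage continuous_t) hpc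
        rintro q ⟨hq, -⟩
        exact Ioo_subset_Icc_self hq
      exact this
    have hmn : c i m < c i n := hm2.trans hn1
    have hp0m : p0.x i m ∈ lam i := p0.h1 i m (hvis _ ⟨hm2, hn1⟩).1 hm2.ne'
    have hp0n : p0.x i n ∈ lam i := p0.h1 i n (hvis _ ⟨hm2, hn1⟩).2 hn1.ne
    have hpm : p.t ≠ c i m := by
      intro hpm
      have hR : p.t ∉ Rc i m := by rw [hpm]; exact hm
      have : p.x i m = p0.x i m := by
        funext k
        have h1 := key (i, m, some (k + 1)) (w_some_pos.2 hR) (fun q hq => by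
          have h2 := hCC (i, m, none) (Finset.mem_insert_self _ _) q hq
          have h3 : q.x i m = p0.x i m := h2
          intro l _
          rw [h3])
        exact h1 k (Nat.lt_succ_self k)
      exact hpM i m hpm hR (this ▸ hp0m)
    have hpn : p.t ≠ c i n := by
      intro hpn
      have hR : p.t ∉ Rc i n := by rw [hpn]; exact hn
      have : p.x i n = p0.x i n := by
        funext k
        have h1 := key (i, n, some (k + 1)) (w_some_pos.2 hR) (fun q hq => by
          have h2 := hCC (i, n, none) (Finset.mem_insert_of_mem (Finset.mem_insert_self _ _)) q hq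
          have h3 : q.x i n = p0.x i n := h2
          intro l _
          rw [h3])
        exact h1 k (Nat.lt_succ_self k)
      exact hpM i n hpn hR (this ▸ hp0n)
    have hpt' : p.t ∈ Ioo (c i m) (c i n) :=
      ⟨lt_of_le_of_ne hpt.1 hpm.symm, lt_of_le_of_ne hpt.2 hpn⟩
    refine ⟨hpt', ?_⟩
    simp only [mem_iInter]
    exact fun j hj => ⟨hw j hj _ hpt', key j (hw j hj _ hpt') (hCC j hj)⟩

end Pool.Agent.Helper520.MZ
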